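import Pool.Agent.H68.QT.Targets
import Pool.Agent.H81.QC.AVJ

/-!
# Module AVT: a tower is not right in most simulations
-/

set_option autoImplicit false

namespace Pool.Agent.H81.QT

open Finset Filter Pool.Agent.H6.NB Pool.Agent.H70.OQ Pool.Agent.H70.RK Pool.Agent.H70.RC
open Pool.Agent.H68.QC Pool.Agent.H68.QT
open Pool.Agent.H70.RW (SimK)

theorem acc_zero (mw : ℕ) (M : Tow 0) (O : List Bool → Bool) :
    Yes mw 0 (fun _ => (M : QAlg)) O ↔ Acc mw 0 M O := Iff.rfl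

theorem rej_zero (mw : ℕ) (M : Tow 0) (O : List Bool → Bool) :
    No mw 0 (fun _ => (M : QAlg)) O ↔ Rej mw 0 M O := Iff.rfl

/-- **AVT.** -/
theorem pf_AVT (hTJT : T_TJT) (hTJ0 : T_TJ0) (hMKX : T_MKX) (hFXU : T_FXU) (hARN : T_ARN)
    (hAMN : T_AMN) (hSCX : T_SCX) : T_AVT := by
  intro k j c C ε hk hε
  have hmax : ∀ n c m : ℕ, 1 ≤ n → m ≤ n ^ c → max m 1 ≤ n ^ c := fun n c m hn hm =>
    max_le hm (Nat.one_le_pow _ _ hn)
  rcases j with _ | i0
  · obtain ⟨k', rfl⟩ : ∃ k', k = k' + 1 := ⟨k - 1, by omega⟩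
    filter_upwards [hTJ0 k' c C ε hε, eventually_ge_atTop 1] with n hn hn1 mw m M hmw hm hadm
    obtain ⟨n', rfl⟩ : ∃ n', n = n' + 1 := ⟨n - 1, by omega⟩
    exact Pool.Agent.H81.QC.core hMKX hFXU hARN hAMN hSCX (k' + 1) n' (k' + 1) m (max m 1)
      (le_max_left _ _) (Acc mw 0 M) (Rej mw 0 M)
      (fun e he => hn mw (max m 1) (fun _ => (M : QAlg)) e (le_trans hmw (le_max_left _ _))
        (le_max_right _ _) (hmax _ _ _ hn1 hm) (fun _ _ _ => hadm) he)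
  · have hT := hTJT k i0 c C ε hε
    rw [Nat.add_comm (i0 + 1) k] at hT
    filter_upwards [hT, eventually_ge_atTop 1] with n hn hn1 mw m M hmw hm hadm
    obtain ⟨n', rfl⟩ : ∃ n', n = n' + 1 := ⟨n - 1, by omega⟩
    exact Pool.Agent.H81.QC.core hMKX hFXU hARN hAMN hSCX (k + (i0 + 1)) n' k m (max m 1)
      (le_max_left _ _) (Acc mw (i0 + 1) M) (Rej mw (i0 + 1) M)
      (fun e he => hn mw (max m 1) M e (le_trans hmw (le_max_left _ _)) (le_max_right _ _)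
        (hmax _ _ _ hn1 hm) hadm he)

end Pool.Agent.H81.QT
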